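import Pool.Agent.LeoC.UpStmts

/-! # Squad LEOC, module FRA: a frame exists over every number field -/

set_option autoImplicit false

open NumberField NumberField.InfinitePlace NumberField.mixedEmbedding IsDedekindDomain Module
  MeasureTheory
open NumberField.mixedEmbedding.fundamentalCone

namespace Pool.Agent.LeoC.H27

open Pool.Agent.LeoC

set_option linter.unusedSectionVars false

variable (k : Type) [Field k] [NumberField k]

/-- coordinatewise square root -/
noncomputable def qr (x : PS k) : PS k := fun v => Real.sqrt (x v)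

theorem qr_cont : Continuous (qr k) :=
  continuous_pi fun v => Real.continuous_sqrt.comp (continuous_apply v)

theorem qr_nonneg (x : PS k) (v : InfinitePlace k) : 0 ≤ qr k x v := Real.sqrt_nonneg _

/-- the square root in the mixed space -/
noncomputable def YY (x : PS k) : mixedSpace k := mixedSpaceOfRealSpace (qr k x)

theorem YY_cont : Continuous (YY k) :=
  (mixedSpaceOfRealSpace (K := k)).continuous.comp (qr_cont k)

theorem normAt_YY (x : PS k) (w : InfinitePlace k) :
    normAtPlace w (YY k x) = Real.sqrt (x w) :=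
  normAtPlace_mixedSpaceOfRealSpace (qr_nonneg k x w)

theorem normAtAll_YY (x : PS k) : normAtAllPlaces (YY k x) = qr k x :=
  normAtAllPlaces_mixedSpaceOfRealSpace (qr_nonneg k x)

theorem norm_YY (x : PS k) (hx : ∀ v, 0 ≤ x v) : mixedEmbedding.norm (YY k x) ^ 2 = nr x := by
  rw [mixedEmbedding.norm_apply, ← Finset.prod_pow]
  refine Finset.prod_congr rfl fun w _ => ?_
  rw [normAt_YY, ← pow_mul, mul_comm, pow_mul, Real.sq_sqrt (hx w)]

theorem normAt_unit_YY (u : (𝓞 k)ˣ) (x : PS k) (w : InfinitePlace k) :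
    normAtPlace w (u • YY k x) =
      normAtPlace w (YY k (fun v => v ((u : 𝓞 k) : k) ^ 2 * x v)) := by
  rw [unitSMul_smul, map_mul, normAt_YY, normAt_YY, normAtPlace_apply]
  change w ((u : 𝓞 k) : k) * Real.sqrt (x w) = Real.sqrt (w ((u : 𝓞 k) : k) ^ 2 * x w)
  rw [Real.sqrt_mul (sq_nonneg _), Real.sqrt_sq (apply_nonneg _ _)]

/-- The cone. -/
def FF : Set (PS k) := {x | (∀ v, 0 < x v) ∧ YY k x ∈ fundamentalCone k}

theorem open_pos : IsOpen {x : PS k | ∀ v, 0 < x v} := by
  have : {x : PS k | ∀ v, 0 < x v} = ⋂ v, {x | 0 < x v} := by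
    ext x
    simp
  rw [this]
  exact isOpen_iInter_of_finite fun s => isOpen_lt continuous_const (continuous_apply s)

theorem FF_meas : MeasurableSet (FF k) :=
  (open_pos k).measurableSet.inter ((YY_cont k).measurable (measurableSet_fundamentalCone k))

theorem FF_scal (x : PS k) (hx : x ∈ FF k) (t : ℝ) (ht : 0 < t) : t • x ∈ FF k := by
  refine ⟨fun s => mul_pos ht (hx.1 s), ?_⟩
  have h : YY k (t • x) = Real.sqrt t • YY k x := by
    rw [YY, YY, ← map_smul]
    congr 1
    funext s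
    change Real.sqrt (t * x s) = Real.sqrt t * Real.sqrt (x s)
    rw [Real.sqrt_mul ht.le]
  rw [h]
  exact smul_mem_of_mem hx.2 (Real.sqrt_pos.2 ht).ne'

theorem FF_exi (x : PS k) (hx : ∀ v, 0 < x v) :
    ∃ η : (𝓞 k)ˣ, (fun v => v ((η : 𝓞 k) : k) ^ 2 * x v) ∈ FF k := by
  have h : mixedEmbedding.norm (YY k x) ≠ 0 := by
    intro h0
    have h1 := norm_YY k x (fun v => (hx v).le)
    rw [h0] at h1
    have h2 : 0 < nr x := Finset.prod_pos fun v _ => pow_pos (hx v) _
    rw [← h1] at h2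
    simp at h2
  obtain ⟨u, hu⟩ := exists_unit_smul_mem h
  refine ⟨u, fun v => ?_, ?_⟩
  · have h1 : 0 < v ((u : 𝓞 k) : k) := by
      rw [InfinitePlace.pos_iff]
      exact RingOfIntegers.coe_ne_zero_iff.2 u.ne_zero
    have := hx v
    positivity
  · exact mem_of_normAtPlace_eq hu fun w => (normAt_unit_YY k u x w).symm

theorem FF_uni (x : PS k) (hx : x ∈ FF k) (η : (𝓞 k)ˣ)
    (h : (fun v => v ((η : 𝓞 k) : k) ^ 2 * x v) ∈ FF k) (v : InfinitePlace k) :
    v ((η : 𝓞 k) : k) = 1 := by
  have h1 : η • YY k x ∈ fundamentalCone k :=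
    mem_of_normAtPlace_eq h.2 fun w => normAt_unit_YY k η x w
  rw [unit_smul_mem_iff_mem_torsion hx.2, NumberField.Units.mem_torsion] at h1
  exact h1 v

theorem mem_iff (x : PS k) (hx : ∀ v, 0 < x v) :
    x ∈ FF k ∩ {x | nr x ≤ 1} ↔ qr k x ∈ expMapBasis '' paramSet k := by
  have h1 : x ∈ FF k ∩ {x | nr x ≤ 1} ↔ YY k x ∈ normLeOne k := by
    rw [mem_normLeOne]
    have h2 : nr x ≤ 1 ↔ mixedEmbedding.norm (YY k x) ≤ 1 := by
      rw [← norm_YY k x fun v => (hx v).le]
      exact sq_le_one_iff₀ (mixedEmbedding.norm_nonneg _)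
    exact ⟨fun h => ⟨h.1.2, h2.1 h.2⟩, fun h => ⟨⟨hx, h.1⟩, h2.2 h.2⟩⟩
  rw [h1, normLeOne_eq_preimage, Set.mem_preimage, normAtAll_YY]

theorem FF_cmp : ∃ c : ℝ, ∀ x ∈ FF k, ∀ v v', x v ≤ c * x v' := by
  classical
  obtain ⟨K0, hK0⟩ : ∃ K0 : Set (PS k), K0 =
    expMapBasis '' Set.univ.pi fun w => if w = Units.dirichletUnitTheorem.w₀ then ({0} : Set ℝ)
      else Set.Icc 0 1 := ⟨_, rfl⟩
  have hcomp : IsCompact K0 := by
    rw [hK0]
    refine (isCompact_univ_pi fun w => ?_).image (continuous_expMapBasis k)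
    split_ifs
    · exact isCompact_singleton
    · exact isCompact_Icc
  have hpos : ∀ y ∈ K0, ∀ v, 0 < y v := by
    intro y hy v
    rw [hK0] at hy
    obtain ⟨a, -, rfl⟩ := hy
    exact expMapBasis_pos _ _
  have hC : ∀ v v' : InfinitePlace k, ∃ C : ℝ, ∀ y ∈ K0, ‖y v / y v'‖ ≤ C := by
    intro v v'
    refine hcomp.exists_bound_of_continuousOn ?_
    refine ContinuousOn.div (continuous_apply v).continuousOn (continuous_apply v').continuousOn ?_
    intro y hy
    exact (hpos y hy v').ne'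
  choose C hC using hC
  refine ⟨∑ v, ∑ v', C v v' ^ 2, ?_⟩
  intro x hx v v'
  have hnr : 0 < nr x := Finset.prod_pos fun v _ => pow_pos (hx.1 v) _
  -- scale
  obtain ⟨t, ht0, ht⟩ : ∃ t : ℝ, 0 < t ∧ nr (t • x) ≤ 1 := by
    obtain ⟨n, hn⟩ : ∃ n : ℕ, n = ∑ v : InfinitePlace k, v.mult := ⟨_, rfl⟩
    have hsc : ∀ t : ℝ, nr (t • x) = t ^ n * nr x := by
      intro t
      rw [nr, nr, hn, ← Finset.prod_pow_eq_pow_sum, ← Finset.prod_mul_distrib]
      refine Finset.prod_congr rfl fun v _ => ?_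
      rw [Pi.smul_apply, smul_eq_mul, mul_pow]
    have hn1 : 1 ≤ n := by
      rw [hn]
      obtain ⟨w⟩ : Nonempty (InfinitePlace k) := inferInstance
      refine (Nat.one_le_iff_ne_zero.2 ?_).trans
        (Finset.single_le_sum (fun v _ => Nat.zero_le _) (Finset.mem_univ w))
      exact InfinitePlace.mult_ne_zero
    refine ⟨(1 + nr x)⁻¹, by positivity, ?_⟩
    rw [hsc]
    have h1 : (1 + nr x)⁻¹ ≤ 1 := inv_le_one_of_one_le₀ (by linarith)
    have h2 : (1 + nr x)⁻¹ ^ n ≤ (1 + nr x)⁻¹ ^ 1 :=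
      pow_le_pow_of_le_one (by positivity) h1 hn1
    calc (1 + nr x)⁻¹ ^ n * nr x ≤ (1 + nr x)⁻¹ ^ 1 * (1 + nr x) := by
          gcongr
          linarith
      _ = 1 := by rw [pow_one]; exact inv_mul_cancel₀ (by positivity)
  have hF := FF_scal k x hx t ht0
  obtain ⟨a, ha, hae⟩ := (mem_iff k (t • x) hF.1).1 ⟨hF, ht⟩
  obtain ⟨b, hb⟩ : ∃ b : PS k, b = expMapBasis (fun i => if i = Units.dirichletUnitTheorem.w₀ then 0
    else a i) := ⟨_, rfl⟩
  have hbK : b ∈ K0 := by
    rw [hb, hK0]
    refine ⟨_, ?_, rfl⟩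
    rw [Set.mem_univ_pi]
    intro w
    have h1 := ha w (Set.mem_univ _)
    simp only at h1
    split_ifs with h2
    · rfl
    · rw [if_neg h2] at h1
      exact Set.Ico_subset_Icc_self h1
  have hab : qr k (t • x) = Real.exp (a Units.dirichletUnitTheorem.w₀) • b := by
    rw [← hae, expMapBasis_apply'', hb]
  have h1 : ∀ v, t * x v = (Real.exp (a Units.dirichletUnitTheorem.w₀) * b v) ^ 2 := by
    intro v
    have h2 := congrFun hab v
    have h3 : qr k (t • x) v ^ 2 = t * x v := Real.sq_sqrt (hF.1 v).le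
    rw [← h3, h2]
    rfl
  obtain ⟨e, he⟩ : ∃ e, e = Real.exp (a Units.dirichletUnitTheorem.w₀) := ⟨_, rfl⟩
  rw [← he] at h1
  have hbv := hpos b hbK v
  have hbv' := hpos b hbK v'
  have h4 : b v ≤ C v v' * b v' := by
    have := (le_abs_self _).trans (hC v v' b hbK)
    rwa [div_le_iff₀ hbv'] at this
  have h5 : b v ^ 2 ≤ C v v' ^ 2 * b v' ^ 2 := by
    rw [← mul_pow]
    exact pow_le_pow_left₀ hbv.le h4 2
  have h6 : C v v' ^ 2 ≤ ∑ v, ∑ v', C v v' ^ 2 := by
    refine (Finset.single_le_sum (f := fun v' => C v v' ^ 2) (fun _ _ => sq_nonneg _)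
      (Finset.mem_univ v')).trans ?_
    exact Finset.single_le_sum (f := fun v => ∑ v', C v v' ^ 2)
      (fun _ _ => Finset.sum_nonneg fun _ _ => sq_nonneg _) (Finset.mem_univ v)
  have h7 : t * x v ≤ t * ((∑ v, ∑ v', C v v' ^ 2) * x v') := by
    calc t * x v = e ^ 2 * b v ^ 2 := by rw [h1 v]; ring
      _ ≤ e ^ 2 * (C v v' ^ 2 * b v' ^ 2) := by gcongr
      _ = C v v' ^ 2 * (e * b v') ^ 2 := by ring
      _ ≤ (∑ v, ∑ v', C v v' ^ 2) * (e * b v') ^ 2 := by gcongr
      _ = t * ((∑ v, ∑ v', C v v' ^ 2) * x v') := by rw [← h1 v']; ring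
  exact le_of_mul_le_mul_left h7 ht0

theorem FF_null : volume (frontier (FF k ∩ {x | nr x ≤ 1})) = 0 := by
  classical
  have hcl : ∀ x ∈ closure (FF k ∩ {x | nr x ≤ 1}), ∀ s, 0 ≤ x s := by
    intro x hx s
    have h1 : IsClosed {x : PS k | 0 ≤ x s} := isClosed_le continuous_const (continuous_apply s)
    have h2 : closure (FF k ∩ {x | nr x ≤ 1}) ⊆ {x : PS k | 0 ≤ x s} :=
      closure_minimal (fun y hy => (hy.1.1 s).le) h1
    exact h2 hx
  have hsub : frontier (FF k ∩ {x | nr x ≤ 1}) ⊆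
      (⋃ s : InfinitePlace k, {x : PS k | x s = 0}) ∪
      (fun a : PS k => fun s => expMapBasis a s ^ 2) ''
        (closure (paramSet k) \ interior (paramSet k)) := by
    intro x hx
    by_cases h0 : ∃ s, x s = 0
    · obtain ⟨s, hs⟩ := h0
      exact Or.inl (Set.mem_iUnion.2 ⟨s, hs⟩)
    · right
      push Not at h0
      have hpos : ∀ s, 0 < x s := fun s =>
        lt_of_le_of_ne (hcl x (frontier_subset_closure hx) s) (h0 s).symm
      have h1 : qr k x ∈ closure (expMapBasis '' paramSet k) := by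
        have h2 : qr k x ∈ qr k '' closure (FF k ∩ {x | nr x ≤ 1}) :=
          ⟨x, frontier_subset_closure hx, rfl⟩
        refine closure_mono ?_ (image_closure_subset_closure_image (qr_cont k) h2)
        rintro _ ⟨y, hy, rfl⟩
        exact (mem_iff k y hy.1.1).1 hy
      have h2 : qr k x ∈ compactSet k := by
        refine closure_minimal ?_ (isCompact_compactSet k).isClosed h1
        exact (Set.image_mono subset_closure).trans (expMapBasis_closure_subset_compactSet k)
      have h3 : qr k x ≠ 0 := by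
        obtain ⟨w⟩ : Nonempty (InfinitePlace k) := inferInstance
        intro h
        have h4 := congrFun h w
        have h5 : 0 < qr k x w := Real.sqrt_pos.2 (hpos w)
        rw [h4] at h5
        exact lt_irrefl _ h5
      obtain ⟨a, ha, hax⟩ := compactSet_eq_union_aux₁ h3 h2
      refine ⟨a, ⟨ha, fun hai => ?_⟩, ?_⟩
      · rw [frontier, Set.mem_sdiff] at hx
        apply hx.2
        rw [mem_interior]
        have hop : IsOpen (expMapBasis '' (interior (paramSet k))) :=
          expMapBasis.isOpen_image_of_subset_source isOpen_interior (by simp [expMapBasis_source])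
        refine ⟨{x | ∀ v, 0 < x v} ∩ qr k ⁻¹' (expMapBasis '' (interior (paramSet k))), ?_,
          (open_pos k).inter (hop.preimage (qr_cont k)), hpos, ⟨a, hai, hax⟩⟩
        rintro y ⟨hy1, hy2⟩
        exact (mem_iff k y hy1).2 (Set.image_mono interior_subset hy2)
      · funext s
        simp only
        rw [hax]
        exact Real.sq_sqrt (hpos s).le
  refine measure_mono_null hsub (measure_union_null ?_ ?_)
  · rw [measure_iUnion_null_iff]
    intro s
    rw [volume_pi]
    exact Measure.pi_hyperplane _ s 0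
  · refine addHaar_image_eq_zero_of_differentiableOn_of_addHaar_eq_zero _ ?_ ?_
    · refine Differentiable.differentiableOn ?_
      have h1 : Differentiable ℝ (expMapBasis : PS k → PS k) := fun a =>
        (hasFDerivAt_expMapBasis k a).differentiableAt
      rw [differentiable_pi] at h1 ⊢
      intro s
      exact (h1 s).pow 2
    · exact (ae_eq_set.1 (closure_paramSet_ae_interior k)).1

/-- FRA -/
theorem fra : FraStmt := by
  intro k _ _
  obtain ⟨c, hc⟩ := FF_cmp k
  exact ⟨{
    F := FF k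
    meas := FF_meas k
    pos := fun x hx => hx.1
    scal := FF_scal k
    cF := c
    cmp := hc
    null := FF_null k
    exi := FF_exi k
    uni := FF_uni k }⟩

end Pool.Agent.LeoC.H27
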