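import Mathlib
import Pool.Agent.LeoC.CountStmts
import Pool.Agent.Helper13_LeoK.LOW

/-!
# LEOC, module LOW: many good marks (port of the module LOW of LEOK by helper13)
-/

set_option autoImplicit false

open NumberField NumberField.InfinitePlace NumberField.mixedEmbedding IsDedekindDomain Module
  MeasureTheory Filter Topology
open Pool.Agent.LeoK Pool.Agent.LeoG
open Pool.Agent.LeoK.H13 (ncard_cover exists_prime)

open scoped Classical

namespace Pool.Agent.LeoC.H27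

theorem hk_zero {k : Type} [Field k] [NumberField k] (g : Q4 (𝓞 k)) (v : InfinitePlace k) :
    hk g 0 0 v = 0 := by
  have h1 : ∀ u : Q4 ℂ, gval u 0 0 = 0 := fun u => by simp [gval]
  have h2 : ∀ u : Q4 ℂ, gcov u 0 0 = 0 := fun u => by simp [gcov]
  simp only [hk, hc, map_zero, h1, h2]
  simp

/-- LOW -/
theorem low (hLWA : LwaStmt) (hLWT : LwtStmt) (hPIK : PikStmt) : LowStmt := by
  intro k _ _ Φ N δ ε hδ hε
  obtain ⟨A, hA, hT⟩ := hLWT k Φ N δ hδ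
  obtain ⟨hsum, hPk, -, -, hQle, -⟩ := hPIK k
  -- finiteness
  have hfin : ∀ (T η : ℝ) (g : Q4 (𝓞 k)), 0 < T → Lrg N δ g → (Mks Φ T η g).Finite := by
    intro T η v hT0 hv
    refine (hT v hv T hT0).1.subset ?_
    rintro p ⟨-, h2, h3, -⟩
    exact ⟨h2, h3⟩
  -- the degenerate cases
  by_cases hdeg : 1 < ε ∨ Φ.w = 0 ∨ cov k = 0
  · refine ⟨1, 1, one_pos, one_pos, le_rfl, fun v hv => ⟨hfin 1 1 v one_pos hv, ?_⟩⟩
    have h0 : (1 - ε) * (Pk k * (2 * Real.pi) ^ finrank ℚ k * Φ.w * 1 / cov k ^ 2) ≤ 0 := by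
      rcases hdeg with h | h | h
      · apply mul_nonpos_of_nonpos_of_nonneg (by linarith)
        have hv : 0 ≤ Φ.w := ENNReal.toReal_nonneg
        have hpi : 0 < (2 * Real.pi) ^ finrank ℚ k := by positivity
        have := mul_nonneg (mul_nonneg hPk.le hpi.le) hv
        positivity
      · rw [h]; simp
      · rw [h]; simp
    exact h0.trans (Nat.cast_nonneg _)
  push Not at hdeg
  obtain ⟨hε1, hvF, hD⟩ := hdeg
  have hvF' : 0 < Φ.w := lt_of_le_of_ne ENNReal.toReal_nonneg (Ne.symm hvF)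
  have hD' : 0 < cov k := lt_of_le_of_ne ENNReal.toReal_nonneg (Ne.symm hD)
  set c0 : ℝ := (2 * Real.pi) ^ finrank ℚ k * Φ.w with hc0
  have hc0' : 0 < c0 := by rw [hc0]; positivity
  obtain ⟨η0, hη0, hLA⟩ := hLWA k Φ N (ε * c0 / 2) (by positivity)
  -- the set of primes
  obtain ⟨Q, hQ⟩ := (summable_iff_vanishing_norm.1 hsum) (ε / 2 * Pk k * c0 / cov k ^ 2 / A)
    (by positivity)
  obtain ⟨T, hT0, hLA'⟩ := hLA δ Q hδ
  refine ⟨T, min η0 1, hT0, lt_min hη0 one_pos, min_le_right _ _, fun v hv =>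
    ⟨hfin T _ v hT0 hv, ?_⟩⟩
  have hG := hLA' T le_rfl v hv
  set G : Set (𝓞 k × 𝓞 k) := {p : 𝓞 k × 𝓞 k | (∀ q ∈ Q, ¬ (p.1 ∈ q.asIdeal ∧ p.2 ∈ q.asIdeal)) ∧
        hk v p.1 p.2 ∈ Φ.F ∧ nr (hk v p.1 p.2) ≤ T ∧
        ∀ s : InfinitePlace k, η0 * s ((mm v : 𝓞 k) : k) ^ (1 / 4 : ℝ) ≤
          s ((gval v p.1 p.2 : 𝓞 k) : k)} with hGdef
  have hGfin : G.Finite := by
    refine (hT v hv T hT0).1.subset ?_
    rintro p ⟨-, h2, h3, -⟩
    exact ⟨h2, h3⟩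
  set W : Set (𝓞 k × 𝓞 k) := {p | p ∈ G ∧ ¬ IsCoprime p.1 p.2} with hWdef
  have hWfin : W.Finite := hGfin.subset (fun p hp => hp.1)
  have hWc : (W.ncard : ℝ) ≤ A * T * (ε / 2 * Pk k * c0 / cov k ^ 2 / A) := by
    refine ncard_cover W hWfin (fun q : HeightOneSpectrum (𝓞 k) =>
      {p : 𝓞 k × 𝓞 k | p.1 ∈ q.asIdeal ∧ p.2 ∈ q.asIdeal ∧ hk v p.1 p.2 ∈ Φ.F ∧
        nr (hk v p.1 p.2) ≤ T}) ?_ (fun p => 1 / np p ^ 2) (A * T) _ (by positivity) Q hQ ?_ ?_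
    · intro q
      refine (hT v hv T hT0).1.subset ?_
      rintro p ⟨-, -, h2, h3⟩
      exact ⟨h2, h3⟩
    · intro q
      have := (hT v hv T hT0).2 q
      calc _ ≤ A * T / np q ^ 2 := this
        _ = A * T * (1 / np q ^ 2) := by ring
    · rintro p ⟨⟨h1, h2, h3, h4⟩, hnc⟩
      have h0 : p.1 ≠ 0 ∨ p.2 ≠ 0 := by
        by_contra hcon
        push Not at hcon
        obtain ⟨s⟩ : Nonempty (InfinitePlace k) := inferInstance
        have := Φ.pos _ h2 s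
        rw [hcon.1, hcon.2, hk_zero] at this
        exact lt_irrefl _ this
      obtain ⟨q, hq1, hq2⟩ := exists_prime p.1 p.2 h0 hnc
      refine ⟨q, fun hqQ => h1 q hqQ ⟨hq1, hq2⟩, hq1, hq2, h2, h3⟩
  -- the good set minus the bad set consists of marks
  have hsub : G \ W ⊆ Mks Φ T (min η0 1) v := by
    rintro p ⟨⟨h1, h2, h3, h4⟩, hpW⟩
    have hco : IsCoprime p.1 p.2 := by
      by_contra hcon
      exact hpW ⟨⟨h1, h2, h3, h4⟩, hcon⟩
    refine ⟨hco, h2, h3, fun s => ?_⟩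
    refine le_trans ?_ (h4 s)
    exact mul_le_mul_of_nonneg_right (min_le_left _ _) (Real.rpow_nonneg (apply_nonneg s _) _)
  have hcard : (G.ncard : ℝ) ≤ ((Mks Φ T (min η0 1) v).ncard : ℝ) + (W.ncard : ℝ) := by
    have h1 : G.ncard ≤ (G \ W).ncard + W.ncard := Set.ncard_le_ncard_sdiff_add_ncard G W hWfin
    have h2 : (G \ W).ncard ≤ (Mks Φ T (min η0 1) v).ncard :=
      Set.ncard_le_ncard hsub (hfin T _ v hT0 hv)
    have h3 : G.ncard ≤ (Mks Φ T (min η0 1) v).ncard + W.ncard := by omega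
    exact_mod_cast h3
  have hprod : Pk k ≤ ∏ p ∈ Q, (1 - 1 / np p ^ 2) := (hQle Q).1
  -- arithmetic
  have hA1 : A * T * (ε / 2 * Pk k * c0 / cov k ^ 2 / A) =
      ε / 2 * (Pk k * c0 * T / cov k ^ 2) := by
    field_simp
  have h10 : Pk k * (c0 - ε * c0 / 2) * T / cov k ^ 2 ≤
      (∏ p ∈ Q, (1 - 1 / np p ^ 2)) * ((2 * Real.pi) ^ finrank ℚ k * Φ.w - ε * c0 / 2) * T /
        cov k ^ 2 := by
    rw [← hc0]
    have h11 : 0 ≤ c0 - ε * c0 / 2 := by nlinarith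
    gcongr
  have h12 : Pk k * (c0 - ε * c0 / 2) * T / cov k ^ 2 =
      (1 - ε / 2) * (Pk k * c0 * T / cov k ^ 2) := by
    ring
  have h13 : (1 - ε) * (Pk k * (2 * Real.pi) ^ finrank ℚ k * Φ.w * T / cov k ^ 2) =
      (1 - ε) * (Pk k * c0 * T / cov k ^ 2) := by
    rw [hc0]; ring
  rw [h13]
  rw [hA1] at hWc
  linarith

end Pool.Agent.LeoC.H27
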